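import Pool.Agent.Helper31.RG.Goals

/-!
# Range concatenation grammars: the universal function is correct
-/

namespace Pool.Agent.Helper45.RG.PkCOD

open Pool.Agent.Helper65.LinSpace Pool.Agent.Helper78 Pool.Agent.Helper78.Mpc
  Pool.Agent.Helper78.Xor Finset Filter Pool.Agent.Helper95.BG

theorem btR_lt (q k r BT x y : ℕ) : Pool.Agent.Helper31.RG.btR q k r BT x y < 2 ^ q :=
  dig_lt (by positivity) _ _

theorem psN_lt (q PS x : ℕ) : psN q PS x < 2 ^ q := dig_lt (by positivity) _ _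

theorem UR_ne_zero_iff (c e a : ℕ) (w : List Bool) :
    Pool.Agent.Helper31.RG.UR c e a (num w) ≠ 0 ↔ ∃ v : List Bool, v.length ≤ c * w.length ∧
      dig 2 (cp 8 e) (Pool.Agent.Helper31.RG.valR e (num w) (Avg.catN a (num v))) ≠ 0 := by
  unfold Pool.Agent.Helper31.RG.UR
  rw [Ne, sum_eq_zero_iff, Avg.log_num]
  push Not
  constructor
  · rintro ⟨y, hy, hne⟩
    rw [mem_range] at hy
    have h1 : y ≠ 0 := by
      rintro rfl
      exact hne (by simp [lt01])
    obtain ⟨v, rfl⟩ := Avg.exists_num (Nat.pos_of_ne_zero h1)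
    refine ⟨v, ?_, fun h => hne (by rw [h, mul_zero])⟩
    have h2 := Avg.pow_le_num v
    have h3 := (Nat.pow_lt_pow_iff_right (a := 2) (by norm_num)).1 (lt_of_le_of_lt h2 hy)
    omega
  · rintro ⟨v, hv, hne⟩
    refine ⟨num v, ?_, ?_⟩
    · rw [mem_range]
      exact lt_of_lt_of_le (Avg.num_lt v) (Nat.pow_le_pow_right (by norm_num) (by omega))
    · have h1 : lt01 0 (num v) = 1 := if_pos (Avg.num_pos v)
      rwa [h1, one_mul]

open Pool.Agent.Helper31.RG in
theorem thm (tree : Pool.Agent.Helper31.RG.G_TREE) (let_ : Pool.Agent.Helper95.BG.G_LET)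
    (map_ : Pool.Agent.Helper31.RG.G_MAPR) (su : Pool.Agent.Helper31.RG.G_SU)
    (wf : Pool.Agent.Helper31.RG.G_WF) (code : Pool.Agent.Helper31.RG.G_CODE)
    (asy : Pool.Agent.Helper31.RG.G_ASY) : Pool.Agent.Helper31.RG.G_COD := by
  intro T _ G k K hk hlin hG ι f C ε c hε hf hlen
  have hK : ∃ r, Pool.Agent.Helper31.RG.LocalSys k r K := by
    rcases hG with hG | hG
    · exact su T G k K hk hlin hG
    · rw [hG]
      exact wf T G k hk hlin
  obtain ⟨r, hK⟩ := hK
  obtain ⟨q, BT, PS, AC, τ, hτ, hcode⟩ := code T k r K hk hK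
  obtain ⟨nT, Bg, MC, n₁, idx, hD⟩ := let_ T f C ε (c + 1) hε hf
  obtain ⟨LT, IT, hmap⟩ := map_ T f ι (c + 1) nT Bg MC n₁ idx q τ hD hτ
  obtain ⟨n₂, hn₂⟩ := eventually_atTop.1 (asy.1 (q + k + r))
  obtain ⟨n₃, hn₃⟩ := eventually_atTop.1 (asy.2.2 k C ε (c + 3) hk hε)
  refine ⟨encL [q, BT, PS, nT, Bg, MC, LT, IT, AC, k, r, 0], n₁ + n₂ + n₃ + 1,
    fun w α hw hα => ?_⟩
  rw [UR_ne_zero_iff]
  refine exists_congr fun v => and_congr_right fun hv => ?_
  rw [← Avg.num_append]
  have h0 : q + k + r ≤ kap w.length := hn₂ w.length (by omega)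
  have hq : q ≤ kap w.length := by omega
  have hk' : k ≤ kap w.length := by omega
  have hr : r ≤ kap w.length := by omega
  obtain ⟨h2, h3, h4⟩ := asy.2.1 k w.length hk
  have hyl : (α ++ v).length ≤ (c + 1) * w.length := by
    rw [List.length_append, Nat.succ_mul]
    omega
  have h5 : (w.length : ℝ) + C * (((w.length + (α ++ v).length : ℕ) : ℝ) + 1) ^
      (1 + 1 / (2 * (k : ℝ)) - ε) ≤ (Pool.Agent.Helper31.RG.mS k w.length : ℕ) := by
    refine hn₃ w.length (by omega) (w.length + (α ++ v).length) ?_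
    have e1 : (c + 3) * (w.length + 1) = (c + 1) * w.length + 2 * w.length + (c + 3) := by ring
    omega
  have h6 : w.length + (f w (α ++ v)).length ≤ Pool.Agent.Helper31.RG.mS k w.length := by
    have h7 := hlen w (α ++ v)
    push_cast at h5
    have h8 : ((w.length + (f w (α ++ v)).length : ℕ) : ℝ) ≤
        (Pool.Agent.Helper31.RG.mS k w.length : ℕ) := by
      push_cast
      linarith
    exact_mod_cast h8
  obtain ⟨hm, hl⟩ := hmap w (α ++ v) (by omega) hyl (Pool.Agent.Helper31.RG.mS k w.length) h4 h6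
  have hle : (w.map ι ++ f w (α ++ v)).length ≤ Pool.Agent.Helper31.RG.mS k w.length := by
    rw [List.length_append, List.length_map]
    exact h6
  have hdiv : (w.map ι ++ f w (α ++ v)).length / Pool.Agent.Helper31.RG.bS k w.length <
      2 ^ ll w.length :=
    lt_of_le_of_lt (Nat.div_le_div_right hle) h3
  have hN : (w.map ι ++ f w (α ++ v)).length <
      2 ^ ll w.length * Pool.Agent.Helper31.RG.bS k w.length :=
    (Nat.div_lt_iff_lt_mul h2).1 hdiv
  rw [hcode _ (2 ^ ll w.length * Pool.Agent.Helper31.RG.bS k w.length)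
    (ltL q nT Bg MC LT IT (LW w.length) (2 ^ (2 * ll w.length)) (num w)
    (num (α ++ v))) hN hl]
  have hval : Pool.Agent.Helper31.RG.valR (encL [q, BT, PS, nT, Bg, MC, LT, IT, AC, k, r, 0])
      (num w) (num (α ++ v)) =
      Pool.Agent.Helper31.RG.V q k r (2 ^ ll w.length * Pool.Agent.Helper31.RG.bS k w.length)
        (ltL q nT Bg MC LT IT (LW w.length) (2 ^ (2 * ll w.length)) (num w)
        (num (α ++ v))) (Pool.Agent.Helper31.RG.btR q k r BT) (psN q PS)
        ((w.map ι ++ f w (α ++ v)).length *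
          (2 ^ ll w.length * Pool.Agent.Helper31.RG.bS k w.length)) := by
    unfold Pool.Agent.Helper31.RG.valR
    simp only [encL, cp, Nat.unpair_pair]
    rw [Avg.log_num, min_eq_left hq, min_eq_left hk', min_eq_left hr, hm]
    exact tree q k r _ _ _ _ _ _ hk h2 (btR_lt _ _ _ _) (psN_lt _ _) hdiv
  rw [hval]
  simp only [encL, cp, Nat.unpair_pair]

end Pool.Agent.Helper45.RG.PkCOD
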